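import Pool.Agent.Lib.MP_9f8c44_an.Main

namespace Pool.Agent.Results.MP_9f8c44_an.AddNullEquivalence

open Pool.Agent.Lib.MP_9f8c44_an

/-- There is (in ZFC) a compact Hausdorff space `K` of cardinality `ℵ₁` which is Eberlein, not
uniform Eberlein, and such that every Pettis integrable function `[0,1] → C(K)` is McShane
integrable if and only if the union of any `ℵ₁` Lebesgue null sets is Lebesgue null. -/
theorem result : ∃ (K : Type) (_ : TopologicalSpace K) (_ : CompactSpace K) (_ : T2Space K),
    Cardinal.mk K = Cardinal.aleph 1 ∧ IsEberlein K ∧ ¬ IsUniformEberlein K ∧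
      (PettisEqMcShane K ↔ AlephOneNullUnions) :=
  main

end Pool.Agent.Results.MP_9f8c44_an.AddNullEquivalence
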