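import Pool.Agent.Lib.EB.Main

/-!
# MP_9f8c44_an, Q1: independence of ZFC

The definitions used in the statement:

* `Question`, in `Pool/Agent/Lib/EB/Main.lean` (`IsEberlein`, `IsUniformEberlein`,
  `PettisEqMcShane`, `AlephOneNullUnions` in `Pool/Agent/Lib/MP_9f8c44_an/Defs.lean`);
* `MCFT`, `MCFV`, `Big`, `cyl`, `bits` in `Pool/Agent/Lib/EB/Iface.lean`;
* `IsOmegaOneStronglyCompact`, `coin`, `fair` in `Pool/Agent/Lib/EB/Defs.lean`;
* `ZFCModel`, `FunOn`, `num` in `Pool/Agent/Lib/MP_ad72f3_pc/Pat.lean`, `ZFModel`, `Fml`, `Sat` in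
  `Pool/Agent/Lib/MP_3ade05_lc/Defs.lean`.
-/

set_option autoImplicit false

namespace Pool.Agent.Results.MP_9f8c44_an.Independence

open Pool.Agent.EB Pool.Agent.Lib.MP_9f8c44_an Pool.PC

/-- The answer to Q1 is yes if unions of `ℵ₁` null sets of reals are null; the answer is no if the
combinatorial principle `MCFT` holds; and if there is an `ω₁`-strongly compact cardinal, then there
is a countable transitive model `V` of `ZFC` in which the principle holds. -/
theorem result :
    (AlephOneNullUnions → Question) ∧ (MCFT → ¬ Question) ∧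
      ∀ κ : Cardinal.{0}, IsOmegaOneStronglyCompact κ →
        ∃ V : Set ZFSet.{0}, V.Countable ∧ (∀ x ∈ V, ∀ y ∈ x, y ∈ V) ∧ ZFCModel V ∧ MCFV V :=
  ⟨question_of_add, not_question_of_MCFT, exists_ctm⟩

end Pool.Agent.Results.MP_9f8c44_an.Independence
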